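import Pool.Agent.K1H27.BN.Stm
import Pool.Agent.K1H31.SN.Areag
import Pool.Agent.Y604.NK.MEAS

/-!
# Project BN: the Cauchy transforms of the measures `y(Φ(·) x)`
-/

set_option autoImplicit false

namespace Pool.Agent.K1H27.BN

open MeasureTheory Set Metric Filter Topology
open scoped ENNReal NNReal ComplexConjugate
open Pool.Agent.Y283.NK (ct)
open Pool.Agent.Y271.RO (ht Bd)
open Pool.Agent.R277.SP (FC Y cK cK_apply ht_cont)

lemma cau_self {I D p s : ℝ} (hI : 0 ≤ I) (hD : 0 ≤ D) (hp : 1 < p) (hs : 1 / p + 1 / s = 1)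
    (h : I ≤ D * I ^ (1 / s)) : I ≤ D ^ p := by
  rcases hI.eq_or_lt with h0 | h0
  · rw [← h0]
    exact Real.rpow_nonneg hD _
  · have h1 : 0 < I ^ (1 / s) := Real.rpow_pos_of_pos h0 _
    have h2 : I ^ (1 / p) ≤ D := by
      have e : I ^ (1 / p) * I ^ (1 / s) = I := by rw [← Real.rpow_add h0, hs, Real.rpow_one]
      have h3 : I ^ (1 / p) * I ^ (1 / s) ≤ D * I ^ (1 / s) := by rw [e]; exact h
      exact le_of_mul_le_mul_right h3 h1
    calc I = (I ^ (1 / p)) ^ p := by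
          rw [← Real.rpow_mul h0.le, one_div_mul_cancel (by linarith), Real.rpow_one]
      _ ≤ D ^ p := Real.rpow_le_rpow (Real.rpow_nonneg h0.le _) h2 (by linarith)

lemma cau_holder {R p s : ℝ} (hps : p.HolderConjugate s) (C1 : ℝ≥0)
    (hC : ∀ w : ℂ, ∫⁻ z in ball (0:ℂ) R, (‖z - w‖ₑ⁻¹) ^ p ≤ C1) {g : ℂ → ℂ} {B : ℝ}
    (hg : Bd g 0 R B) (l : ℂ) :
    ‖ht g l‖ₑ ≤ (C1 : ℝ≥0∞) ^ (1 / p) * (∫⁻ z in ball (0:ℂ) R, ‖g z‖ₑ ^ s) ^ (1 / s) := by
  unfold ht
  have hp0 : 0 < p := hps.pos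
  calc ‖∫ z, g z * (z - l)⁻¹‖ₑ ≤ ∫⁻ z, ‖g z * (z - l)⁻¹‖ₑ := enorm_integral_le_lintegral_enorm _
    _ = ∫⁻ z in ball (0:ℂ) R, ‖g z * (z - l)⁻¹‖ₑ := by
      rw [← lintegral_indicator measurableSet_ball]
      congr 1
      funext z
      by_cases hz : z ∈ ball (0:ℂ) R
      · rw [indicator_of_mem hz]
      · rw [indicator_of_notMem hz, hg.supp z hz, zero_mul, enorm_zero]
    _ ≤ ∫⁻ z in ball (0:ℂ) R, ((fun z => ‖z - l‖ₑ⁻¹) * fun z => ‖g z‖ₑ) z := by
      refine lintegral_mono fun z => ?_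
      rw [Pi.mul_apply, enorm_mul, mul_comm]
      refine mul_le_mul_left ?_ _
      by_cases h : z - l = 0
      · rw [h, inv_zero, enorm_zero]
        exact zero_le
      · rw [enorm_inv h]
    _ ≤ (∫⁻ z in ball (0:ℂ) R, (‖z - l‖ₑ⁻¹) ^ p) ^ (1 / p) *
          (∫⁻ z in ball (0:ℂ) R, ‖g z‖ₑ ^ s) ^ (1 / s) :=
        ENNReal.lintegral_mul_le_Lp_mul_Lq _ hps
          ((measurable_id.sub_const l).enorm.inv.aemeasurable) hg.meas.enorm.aemeasurable
    _ ≤ _ := by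
      refine mul_le_mul_left (ENNReal.rpow_le_rpow (hC l) (by positivity)) _

/-- the bound for a single Cauchy transform -/
lemma cau_one {E : Type} [NormedAddCommGroup E] [NormedSpace ℂ E] {K : Set ℂ} [CompactSpace K]
    {Φ : C(K, ℂ) →ₐ[ℂ] (E →L[ℂ] E)} {N : E →L[ℂ] E} {M : ℝ} (hF : FC Φ N M)
    {R p s : ℝ} (hps : p.HolderConjugate s) (hp1 : 1 < p) (C1 : ℝ≥0)
    (hC : ∀ w : ℂ, ∫⁻ z in ball (0:ℂ) R, (‖z - w‖ₑ⁻¹) ^ p ≤ C1)
    (y : E →L[ℂ] ℂ) (x : E) (f : ℂ → ℂ) (hf : Measurable f)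
    (he : ∀ (B : ℝ) (g : ℂ → ℂ), Bd g 0 R B → y (Y Φ g x) = ∫ z, g z * f z) (k : ℕ) :
    ∫⁻ z in {z ∈ ball (0:ℂ) R | ‖f z‖ ≤ k}, ‖f z‖ₑ ^ p ≤
      ENNReal.ofReal ((M * (C1 : ℝ) ^ (1 / p) * (‖y‖ * ‖x‖)) ^ p) := by
  have hp0 : 0 < p := hps.pos
  have hs0 : 0 < s := hps.symm.pos
  set A : Set ℂ := {z ∈ ball (0:ℂ) R | ‖f z‖ ≤ k} with hA
  have hAm : MeasurableSet A := by
    rw [hA]
    exact measurableSet_ball.inter (measurableSet_le hf.norm measurable_const)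
  obtain ⟨g, hgd⟩ : ∃ g : ℂ → ℂ, ∀ z, g z =
      A.indicator (fun z => conj (f z) * ((‖f z‖ ^ (p - 2) : ℝ) : ℂ)) z := ⟨_, fun z => rfl⟩
  have hgn : ∀ z, ‖g z‖ = A.indicator (fun z => ‖f z‖ ^ (p - 1)) z := by
    intro z
    rw [hgd]
    by_cases hz : z ∈ A
    · rw [indicator_of_mem hz, indicator_of_mem hz, norm_mul, RCLike.norm_conj, Complex.norm_real,
        Real.norm_of_nonneg (Real.rpow_nonneg (norm_nonneg _) _)]
      by_cases h0 : ‖f z‖ = 0
      · rw [h0, zero_mul, Real.zero_rpow (by linarith)]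
      · have h1 : 0 < ‖f z‖ := lt_of_le_of_ne (norm_nonneg _) (Ne.symm h0)
        calc ‖f z‖ * ‖f z‖ ^ (p - 2) = ‖f z‖ ^ (1:ℝ) * ‖f z‖ ^ (p - 2) := by rw [Real.rpow_one]
          _ = ‖f z‖ ^ (1 + (p - 2)) := (Real.rpow_add h1 _ _).symm
          _ = ‖f z‖ ^ (p - 1) := by congr 1; ring
    · rw [indicator_of_notMem hz, indicator_of_notMem hz, norm_zero]
  have hbd : Bd g 0 R ((k : ℝ) ^ (p - 1)) := by
    refine ⟨?_, Real.rpow_nonneg (Nat.cast_nonneg k) _, fun z => ?_, fun z hz => ?_⟩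
    · have : g = A.indicator (fun z => conj (f z) * ((‖f z‖ ^ (p - 2) : ℝ) : ℂ)) := funext hgd
      rw [this]
      refine Measurable.indicator ?_ hAm
      exact (Complex.continuous_conj.measurable.comp hf).mul
        (Complex.measurable_ofReal.comp (hf.norm.pow_const _))
    · rw [hgn]
      by_cases hz : z ∈ A
      · rw [indicator_of_mem hz]
        exact Real.rpow_le_rpow (norm_nonneg _) hz.2 (by linarith)
      · rw [indicator_of_notMem hz]
        exact Real.rpow_nonneg (Nat.cast_nonneg k) _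
    · rw [hgd, indicator_of_notMem]
      exact fun h => hz h.1
  obtain ⟨L, hL⟩ : ∃ L : ℝ≥0∞, L = ∫⁻ z in A, ‖f z‖ₑ ^ p := ⟨_, rfl⟩
  have hLfin : L ≠ ⊤ := by
    rw [hL]
    have hV : volume A ≠ ⊤ := ne_top_of_le_ne_top (measure_ball_lt_top (x := (0:ℂ)) (r := R)).ne
      (measure_mono fun z hz => hz.1)
    refine ne_top_of_le_ne_top (b := ((k : ℝ≥0∞) ^ p) * volume A) ?_ ?_
    · exact ENNReal.mul_ne_top (ENNReal.rpow_ne_top_of_nonneg hp0.le (ENNReal.natCast_ne_top k)) hV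
    · rw [← setLIntegral_const]
      refine setLIntegral_mono' hAm fun z hz => ENNReal.rpow_le_rpow ?_ hp0.le
      rw [← ofReal_norm, ← ENNReal.ofReal_natCast]
      exact ENNReal.ofReal_le_ofReal hz.2
  have hgs : ∫⁻ z in ball (0:ℂ) R, ‖g z‖ₑ ^ s = L := by
    rw [hL, ← lintegral_indicator measurableSet_ball, ← lintegral_indicator hAm]
    congr 1
    funext z
    by_cases hz : z ∈ A
    · rw [indicator_of_mem hz, indicator_of_mem (show z ∈ ball (0:ℂ) R from hz.1), ← ofReal_norm,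
        hgn, indicator_of_mem hz, ← ofReal_norm (f z),
        ENNReal.ofReal_rpow_of_nonneg (Real.rpow_nonneg (norm_nonneg _) _) hs0.le,
        ENNReal.ofReal_rpow_of_nonneg (norm_nonneg _) hp0.le, ← Real.rpow_mul (norm_nonneg _)]
      congr 2
      exact hps.sub_one_mul_conj
    · rw [indicator_of_notMem hz]
      have h0 : g z = 0 := by rw [hgd, indicator_of_notMem hz]
      by_cases hz' : z ∈ ball (0:ℂ) R
      · rw [indicator_of_mem hz', h0, enorm_zero, ENNReal.zero_rpow_of_pos hs0]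
      · rw [indicator_of_notMem hz']
  have hgf : ∫ z, g z * f z = ((L.toReal : ℝ) : ℂ) := by
    have e1 : ∀ z, g z * f z = ((A.indicator (fun z => ‖f z‖ ^ p) z : ℝ) : ℂ) := by
      intro z
      rw [hgd]
      by_cases hz : z ∈ A
      · rw [indicator_of_mem hz, indicator_of_mem hz]
        by_cases h0 : ‖f z‖ = 0
        · rw [h0, norm_eq_zero.1 h0, mul_zero, Real.zero_rpow hp0.ne', Complex.ofReal_zero]
        · have h1 : 0 < ‖f z‖ := lt_of_le_of_ne (norm_nonneg _) (Ne.symm h0)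
          have e2 : conj (f z) * f z = ((‖f z‖ ^ (2:ℝ) : ℝ) : ℂ) := by
            rw [mul_comm, Complex.mul_conj, Complex.normSq_eq_norm_sq]
            norm_cast
          calc conj (f z) * ((‖f z‖ ^ (p - 2) : ℝ) : ℂ) * f z
              = (conj (f z) * f z) * ((‖f z‖ ^ (p - 2) : ℝ) : ℂ) := by ring
            _ = ((‖f z‖ ^ (2:ℝ) * ‖f z‖ ^ (p - 2) : ℝ) : ℂ) := by rw [e2]; push_cast; rfl
            _ = ((‖f z‖ ^ p : ℝ) : ℂ) := by
              rw [← Real.rpow_add h1]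
              congr 2
              ring
      · rw [indicator_of_notMem hz, indicator_of_notMem hz, zero_mul, Complex.ofReal_zero]
    simp_rw [e1]
    rw [integral_complex_ofReal, integral_indicator hAm, integral_eq_lintegral_of_nonneg_ae
      (Eventually.of_forall fun z => Real.rpow_nonneg (norm_nonneg _) _)
      (hf.norm.pow_const _).aestronglyMeasurable, hL]
    congr 2
    refine lintegral_congr fun z => ?_
    rw [← ofReal_norm, ENNReal.ofReal_rpow_of_nonneg (norm_nonneg _) hp0.le]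
  have hI0 : 0 ≤ L.toReal := ENNReal.toReal_nonneg
  have hht : ∀ l, ‖ht g l‖ ≤ (C1 : ℝ) ^ (1 / p) * L.toReal ^ (1 / s) := by
    intro l
    have h1 := cau_holder hps C1 hC hbd l
    rw [hgs] at h1
    have h2 : (C1 : ℝ≥0∞) ^ (1 / p) * L ^ (1 / s) ≠ ⊤ :=
      ENNReal.mul_ne_top (ENNReal.rpow_ne_top_of_nonneg (by positivity) ENNReal.coe_ne_top)
        (ENNReal.rpow_ne_top_of_nonneg (by positivity) hLfin)
    have h3 := (ENNReal.toReal_le_toReal enorm_ne_top h2).2 h1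
    rw [toReal_enorm, ENNReal.toReal_mul, ← ENNReal.toReal_rpow, ← ENNReal.toReal_rpow,
      ENNReal.coe_toReal] at h3
    exact h3
  have hup : L.toReal ≤ (M * (C1 : ℝ) ^ (1 / p) * (‖y‖ * ‖x‖)) * L.toReal ^ (1 / s) := by
    have h1 : ‖y (Y Φ g x)‖ = L.toReal := by
      rw [he _ g hbd, hgf, Complex.norm_real, Real.norm_of_nonneg hI0]
    have h2 : ‖Y Φ g x‖ ≤ M * ((C1 : ℝ) ^ (1 / p) * L.toReal ^ (1 / s)) * ‖x‖ := by
      refine hF.bd_apply (by positivity) (fun t => ?_) x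
      rw [cK_apply (ht_cont hbd)]
      exact hht _
    calc L.toReal = ‖y (Y Φ g x)‖ := h1.symm
      _ ≤ ‖y‖ * ‖Y Φ g x‖ := y.le_opNorm _
      _ ≤ ‖y‖ * (M * ((C1 : ℝ) ^ (1 / p) * L.toReal ^ (1 / s)) * ‖x‖) :=
        mul_le_mul_of_nonneg_left h2 (norm_nonneg _)
      _ = _ := by ring
  have hM := hF.nonneg
  have hfin := cau_self hI0 (by positivity) hp1 (by
    rw [one_div, one_div]; exact hps.inv_add_inv_eq_one) hup
  rw [← hL, ← ENNReal.ofReal_toReal hLfin]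
  exact ENNReal.ofReal_le_ofReal hfin

theorem t_CAU : S_CAU := by
  intro E _ _ K _ Φ N M hF
  choose μ hfin hreg w d hm using fun (x : E) (y : E →L[ℂ] ℂ) => hF.mo x y
  have heq : ∀ (y : E →L[ℂ] ℂ) (x : E) (c : ℂ) (r B : ℝ) (g : ℂ → ℂ), Bd g c r B →
      Integrable (fun z => g z * ct (Subtype.val : K → ℂ) (w x y) (d x y) z) ∧
      y (Y Φ g x) = ∫ z, g z * ct (Subtype.val : K → ℂ) (w x y) (d x y) z := by
    intro y x c r B g hg
    have := hfin x y
    exact (hm x y).ht hg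
  have hmeas : ∀ (y : E →L[ℂ] ℂ) (x : E),
      Measurable (ct (Subtype.val : K → ℂ) (w x y) (d x y)) := by
    intro y x
    have := hfin x y
    exact Pool.Agent.Y604.NK.meas_ct measurable_subtype_coe _ _
  refine ⟨fun y x => ct (Subtype.val : K → ℂ) (w x y) (d x y), hmeas, heq, ?_⟩
  intro p hp1 hp2 R
  obtain ⟨C1, hC⟩ := Pool.Agent.K1H31.SN.t_AREAG R p (by linarith) hp2
  have hps : p.HolderConjugate (p / (p - 1)) := Real.HolderConjugate.conjExponent hp1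
  have hM := hF.nonneg
  refine ⟨Real.toNNReal (M ^ p * C1), fun y x => ?_⟩
  have hU : ball (0:ℂ) R = ⋃ k : ℕ,
      {z ∈ ball (0:ℂ) R | ‖ct (Subtype.val : K → ℂ) (w x y) (d x y) z‖ ≤ k} := by
    ext z
    simp only [mem_iUnion, mem_ofPred_eq]
    constructor
    · intro hz
      obtain ⟨k, hk⟩ := exists_nat_ge ‖ct (Subtype.val : K → ℂ) (w x y) (d x y) z‖
      exact ⟨k, hz, hk⟩
    · rintro ⟨k, hz, -⟩
      exact hz
  have hdir : Directed (· ⊆ ·) fun k : ℕ =>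
      {z ∈ ball (0:ℂ) R | ‖ct (Subtype.val : K → ℂ) (w x y) (d x y) z‖ ≤ k} := by
    refine Monotone.directed_le fun a b hab z hz => ⟨hz.1, hz.2.trans ?_⟩
    exact_mod_cast hab
  show ∫⁻ z in ball (0:ℂ) R, ‖ct (Subtype.val : K → ℂ) (w x y) (d x y) z‖ₑ ^ p ≤ _
  rw [hU, setLIntegral_iUnion_of_directed _ hdir]
  refine iSup_le fun k => ?_
  refine (cau_one hF hps hp1 C1 hC y x _ (hmeas y x)
    (fun B g hg => (heq y x 0 R B g hg).2) k).trans (le_of_eq ?_)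
  have hxy : 0 ≤ ‖y‖ * ‖x‖ := by positivity
  rw [show ((Real.toNNReal (M ^ p * C1) : ℝ≥0) : ℝ≥0∞) = ENNReal.ofReal (M ^ p * C1) from rfl,
    ← ENNReal.ofReal_mul (by positivity)]
  congr 1
  rw [Real.mul_rpow (by positivity) hxy, Real.mul_rpow hM (by positivity),
    ← Real.rpow_mul (by positivity), one_div_mul_cancel (by linarith), Real.rpow_one]

end Pool.Agent.K1H27.BN
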