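import Pool.Agent.K1H27.BN.Stm
import Pool.Agent.K1H48.VM.ONE
import Pool.Agent.R277.SP.Unc

/-!
# Project BN: examples of functional calculi
-/

set_option autoImplicit false

namespace Pool.Agent.K1H27.BN

open MeasureTheory Set Metric Filter Topology
open scoped ENNReal NNReal
open Pool.Agent.R277.SP (FC UB zz)
open Pool.Agent.K1H27.VM (IsMul)
open K1H48.VM (exMul im_unique im_mul im_add im_const im_norm_le im_congr)

/-- multiplication operators on `L^p` -/
theorem fc_mul {S : Type} [MeasurableSpace S] {μ : Measure S} {p : ℝ≥0∞} [Fact (1 ≤ p)]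
    {φ : S → ℂ} (hφ : Measurable φ) {C : ℝ} (hC : ∀ s, ‖φ s‖ ≤ C)
    {N : Lp ℂ p μ →L[ℂ] Lp ℂ p μ} (hN : IsMul φ N) :
    ∃ (K : Set ℂ) (_ : CompactSpace K)
      (Φ : C(K, ℂ) →ₐ[ℂ] (Lp ℂ p μ →L[ℂ] Lp ℂ p μ)) (M : ℝ), FC Φ N M := by
  classical
  have hcomp : CompactSpace (closedBall (0:ℂ) C) :=
    isCompact_iff_compactSpace.1 (isCompact_closedBall 0 C)
  refine ⟨closedBall (0:ℂ) C, hcomp, ?_⟩
  let k : S → closedBall (0:ℂ) C := fun s => ⟨φ s, by
    rw [mem_closedBall_zero_iff]; exact hC s⟩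
  have hk : Measurable k := hφ.subtype_mk
  have hex : ∀ g : C(closedBall (0:ℂ) C, ℂ), ∃ A : Lp ℂ p μ →L[ℂ] Lp ℂ p μ,
      IsMul (fun s => g (k s)) A := fun g =>
    exMul (g.continuous.measurable.comp hk) (C := ‖g‖) fun s => g.norm_coe_le_norm _
  choose A hA using hex
  let Φ : C(closedBall (0:ℂ) C, ℂ) →ₐ[ℂ] (Lp ℂ p μ →L[ℂ] Lp ℂ p μ) := AlgHom.ofLinearMap
    { toFun := A
      map_add' := fun g g' => im_unique (hA (g + g')) (im_add (hA g) (hA g'))
      map_smul' := fun c g => by
        refine im_unique (hA (c • g)) ?_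
        exact im_mul (im_const c) (hA g) }
    (by
      have h1 := im_const (μ := μ) (p := p) (1:ℂ)
      rw [one_smul] at h1
      exact im_unique (hA 1) h1)
    (fun g g' => im_unique (hA (g * g')) (im_mul (hA g) (hA g')))
  refine ⟨Φ, 1, zero_le_one, fun g => ?_, ?_⟩
  · rw [one_mul]
    exact im_norm_le (hA g) (norm_nonneg _) fun s => g.norm_coe_le_norm _
  · exact im_unique (hA (zz _)) hN

/-- diagonal operators with respect to unconditional bases -/
theorem fc_diag {X : Type} [NormedAddCommGroup X] [NormedSpace ℂ X] [CompleteSpace X] {e : ℕ → X}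
    {f : ℕ → (X →L[ℂ] ℂ)} (h : UB e f) {D : X →L[ℂ] X} {l : ℕ → ℂ}
    (hD : ∀ n, D (e n) = l n • e n) :
    ∃ (K : Set ℂ) (_ : CompactSpace K) (Φ : C(K, ℂ) →ₐ[ℂ] (X →L[ℂ] X)) (M : ℝ), FC Φ D M := by
  obtain ⟨C, hC0, hC⟩ := h.mult
  -- the spectrum
  have he0 : ∀ n, e n ≠ 0 := by
    intro n h0
    have := h.bi n n
    rw [h0, map_zero, if_pos rfl] at this
    exact zero_ne_one this
  have hl : ∀ n, ‖l n‖ ≤ ‖D‖ := by
    intro n
    have h1 := D.le_opNorm (e n)
    rw [hD, norm_smul] at h1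
    exact le_of_mul_le_mul_right h1 (norm_pos_iff.2 (he0 n))
  set K : Set ℂ := closure (range l) with hK
  have hKc : IsCompact K := by
    refine (isCompact_closedBall (0 : ℂ) ‖D‖).of_isClosed_subset isClosed_closure ?_
    refine closure_minimal ?_ isClosed_closedBall
    rintro _ ⟨n, rfl⟩
    rw [mem_closedBall_zero_iff]
    exact hl n
  have : CompactSpace K := isCompact_iff_compactSpace.1 hKc
  let k : ℕ → K := fun n => ⟨l n, subset_closure ⟨n, rfl⟩⟩
  have hex : ∀ g : C(K, ℂ), ∃ A : X →L[ℂ] X,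
      (∀ x, HasSum (fun n => g (k n) • (f n x • e n)) (A x)) ∧ ‖A‖ ≤ ‖g‖ * C := fun g =>
    hC (fun n => g (k n)) ‖g‖ fun n => g.norm_coe_le_norm _
  choose A hA1 hA2 using hex
  have hco : ∀ g x n, f n (A g x) = g (k n) * f n x := fun g x n => h.coef (hA1 g x) n
  let Φ : C(K, ℂ) →ₐ[ℂ] (X →L[ℂ] X) := AlgHom.ofLinearMap
    { toFun := A
      map_add' := fun g g' => by
        ext x
        refine h.ext_coef fun n => ?_
        rw [add_apply, map_add, hco, hco, hco, ContinuousMap.add_apply]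
        ring
      map_smul' := fun c g => by
        ext x
        refine h.ext_coef fun n => ?_
        rw [RingHom.id_apply, smul_apply, map_smul, hco, hco, ContinuousMap.smul_apply,
          smul_eq_mul, smul_eq_mul]
        ring }
    (by
      ext x
      refine h.ext_coef fun n => ?_
      show f n (A 1 x) = f n x
      rw [hco, ContinuousMap.one_apply, one_mul])
    (fun g g' => by
      ext x
      refine h.ext_coef fun n => ?_
      show f n (A (g * g') x) = f n (A g (A g' x))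
      rw [hco, hco, hco, ContinuousMap.mul_apply]
      ring)
  have hΦ : ∀ g, Φ g = A g := fun _ => rfl
  have hDx : ∀ x, HasSum (fun n => l n • (f n x • e n)) (D x) := by
    intro x
    have h1 := (h.sum x).mapL D
    have h2 : (fun n => l n • (f n x • e n)) = fun n => D (f n x • e n) := by
      funext n
      rw [map_smul, hD, smul_comm]
    rw [h2]
    exact h1
  have hF : FC Φ D C := by
    refine ⟨hC0, fun g => ?_, ?_⟩
    · rw [hΦ, mul_comm]
      exact hA2 g
    · ext x
      refine h.ext_coef fun n => ?_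
      rw [hΦ, hco, h.coef (hDx x)]
      rfl
  exact ⟨K, this, Φ, C, hF⟩

end Pool.Agent.K1H27.BN
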