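import Pool.Agent.R277.SP.Main2
import Pool.Agent.K1H27.SN.Stm

/-!
# Project BN (MP_5ac32f_an): `N + t K` on Banach spaces, `N` with a bounded functional calculus for
continuous functions, `K` nuclear of order less than one

Statements of the independent parts.
-/

set_option autoImplicit false

namespace Pool.Agent.K1H27.BN

open MeasureTheory Set Metric Filter Topology
open scoped ENNReal NNReal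
open Pool.Agent.Y283.NK (lm LogBd HasHyp)
open Pool.Agent.Y271.RO (ht Bd)
open Pool.Agent.R277.SP (FC Y LocV ad adΦ ev)
open Pool.Agent.K1H27.SN (fd col)

section

variable {E : Type} [NormedAddCommGroup E] [NormedSpace ℂ E]

/-- `Ct y x` is the Cauchy transform of the measure `y(Φ(·) x)` -/
structure CT {K : Set ℂ} [CompactSpace K] (Φ : C(K, ℂ) →ₐ[ℂ] (E →L[ℂ] E))
    (Ct : (E →L[ℂ] ℂ) → E → ℂ → ℂ) : Prop where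
  meas : ∀ y x, Measurable (Ct y x)
  eq : ∀ (y : E →L[ℂ] ℂ) (x : E) (c : ℂ) (r B : ℝ) (g : ℂ → ℂ), Bd g c r B →
    Integrable (fun z => g z * Ct y x z) ∧ y (Y Φ g x) = ∫ z, g z * Ct y x z
  bd : ∀ p : ℝ, 1 < p → p < 2 → ∀ R : ℝ, ∃ B : ℝ≥0, ∀ (y : E →L[ℂ] ℂ) (x : E),
    ∫⁻ z in ball (0:ℂ) R, ‖Ct y x z‖ₑ ^ p ≤ B * ENNReal.ofReal ((‖y‖ * ‖x‖) ^ p)

/-- `K y = ∑ f j y • x j` with `p`-summable norms -/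
structure Rep (p : ℝ) (K : E →L[ℂ] E) (f : ℕ → (E →L[ℂ] ℂ)) (x : ℕ → E) : Prop where
  sf : Summable fun j => ‖f j‖ ^ p
  sx : Summable fun j => ‖x j‖ ^ p
  sum : ∀ y, HasSum (fun j => f j y • x j) (K y)

/-- integrated local resolvents -/
def Lrs (T : E →L[ℂ] E) : Prop :=
  ∀ (x : E) (c : ℂ) (ρ : ℝ), 0 < ρ → ∃ (X : ℕ → E) (κ : ℂ) (C : ℝ), κ ≠ 0 ∧
    (∀ n, ‖X n‖ ≤ C * ρ ^ n) ∧ T (X 0) - c • X 0 = X 1 - κ • x ∧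
    ∀ n, T (X (n + 1)) - c • X (n + 1) = X (n + 2)

end

/-- CAU: the Cauchy transforms -/
def S_CAU : Prop :=
  ∀ (E : Type) [NormedAddCommGroup E] [NormedSpace ℂ E] (K : Set ℂ) [CompactSpace K]
    (Φ : C(K, ℂ) →ₐ[ℂ] (E →L[ℂ] E)) (N : E →L[ℂ] E) (M : ℝ), FC Φ N M →
  ∃ Ct : (E →L[ℂ] ℂ) → E → ℂ → ℂ, CT Φ Ct

/-- WGT: a weight orthogonal to the monomials -/
def S_WGT : Prop :=
  ∀ (c : ℂ) (ρ : ℝ) (u : ℂ → ℝ≥0∞), 0 < ρ → Measurable u → ∫⁻ z in ball c ρ, u z ≠ ⊤ →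
  ∃ g : ℂ → ℂ, Measurable g ∧ (∀ z, z ∉ ball c ρ → g z = 0) ∧ (∀ z, u z = ⊤ → g z = 0) ∧
    (∀ z, ‖g z‖ ≤ Real.exp (-(u z).toReal)) ∧
    (∀ n : ℕ, ∫ z, (z - c) ^ (n + 1) * g z = 0) ∧ ∫ z, g z ≠ 0

/-- the weight `exp (-u)` -/
noncomputable def wu (u : ℂ → ℝ≥0∞) (z : ℂ) : ℝ := if u z = ⊤ then 0 else Real.exp (-(u z).toReal)

/-- JEN: Jensen's inequality for polynomials with weights -/
def S_JEN : Prop :=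
  ∀ (c : ℂ) (ρ : ℝ) (u : ℂ → ℝ≥0∞), 0 < ρ → Measurable u → ∫⁻ z in ball c ρ, u z ≠ ⊤ →
  ∃ κ : ℝ, 0 < κ ∧ ∀ P : Polynomial ℂ,
    κ * ‖P.eval 0‖ ≤ ∫ z in ball c ρ, ‖P.eval (z - c)‖ * wu u z

/-- HB: functions dominated by the weight and orthogonal to the monomials -/
def S_HB : Prop :=
  ∀ (c : ℂ) (ρ : ℝ) (w : ℂ → ℝ), 0 < ρ → Measurable w → (∀ z, 0 ≤ w z) → (∀ z, w z ≤ 1) →
  ∀ κ : ℝ, 0 < κ →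
    (∀ P : Polynomial ℂ, κ * ‖P.eval 0‖ ≤ ∫ z in ball c ρ, ‖P.eval (z - c)‖ * w z) →
  ∃ g : ℂ → ℂ, Measurable g ∧ (∀ z, z ∉ ball c ρ → g z = 0) ∧ (∀ z, ‖g z‖ ≤ w z) ∧
    (∀ n : ℕ, ∫ z, (z - c) ^ (n + 1) * g z = 0) ∧ ∫ z, g z ≠ 0

/-- the finite sections -/
def sec (F : ℕ → ℕ → ℂ) (n : ℕ) : Matrix (Fin n) (Fin n) ℂ := Matrix.of fun i j => F i j

/-- GEN: generic coupling constants -/
def S_GEN : Prop :=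
  ∀ p : ℝ, 1 < p → p < 2 → ∀ F : ℂ → ℕ → ℕ → ℂ, (∀ i j, Measurable fun z => F z i j) →
    (∀ R : ℝ, ∫⁻ z in ball (0:ℂ) R, ∑' i, ∑' j, ‖F z i j‖ₑ ^ p ≠ ⊤) →
  ∀ (m : Measure ℂ) [SFinite m], LogBd m →
  ∀ᵐ t ∂m, ∀ l : ℕ, ∃ (I : Set ℕ) (B : ℝ≥0), I.Infinite ∧ ∀ n ∈ I,
    ∫⁻ z in ball (0:ℂ) l, lm ‖fd (sec (F z) n) t‖ ≤ B

/-- SOL: the infinite systems of linear equations -/
def S_SOL : Prop :=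
  ∀ p : ℝ, 1 < p → p < 2 → ∀ (F : ℂ → ℕ → ℕ → ℂ) (b : ℂ → ℕ → ℂ) (t : ℂ) (R : ℝ),
    (∀ i j, Measurable fun z => F z i j) → (∀ i, Measurable fun z => b z i) →
    ∫⁻ z in ball (0:ℂ) R, ∑' i, ∑' j, ‖F z i j‖ₑ ^ p ≠ ⊤ →
    ∫⁻ z in ball (0:ℂ) R, ∑' i, ‖b z i‖ₑ ^ p ≠ ⊤ →
    (∃ (I : Set ℕ) (B : ℝ≥0), I.Infinite ∧ ∀ n ∈ I,
      ∫⁻ z in ball (0:ℂ) R, lm ‖fd (sec (F z) n) t‖ ≤ B) →
  ∃ (G : ℂ → ℝ≥0∞) (c : ℕ → ℂ → ℂ), Measurable G ∧ (∀ j, Measurable (c j)) ∧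
    ∫⁻ z in ball (0:ℂ) R, G z ≠ ⊤ ∧
    ∀ᵐ z ∂(volume.restrict (ball (0:ℂ) R)),
      (∀ n, ∑ j ∈ Finset.range n, ‖c j z‖ ^ 2 ≤ Real.exp (2 * (G z).toReal)) ∧
      ∀ i, HasSum (fun j => t * (F z i j * c j z)) (c i z - b z i)

/-- NRM: the norms of the integrated local resolvents -/
def S_NRM : Prop :=
  ∀ (E : Type) [NormedAddCommGroup E] [NormedSpace ℂ E] (K : Set ℂ) [CompactSpace K]
    (Φ : C(K, ℂ) →ₐ[ℂ] (E →L[ℂ] E)) (N : E →L[ℂ] E) (M : ℝ), FC Φ N M →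
  ∀ Ct : (E →L[ℂ] ℂ) → E → ℂ → ℂ, CT Φ Ct → ∀ p : ℝ, 1 < p → p < 2 →
  ∀ (c : ℂ) (ρ : ℝ), 0 < ρ → ∃ C : ℝ, 0 ≤ C ∧
  ∀ G : ℕ → ℂ → ℂ, (∀ j, Measurable (G j)) → (∀ j z, z ∉ ball c ρ → G j z = 0) →
    (∀ z n, ∑ j ∈ Finset.range n, ‖G j z‖ ^ 2 ≤ 1) →
  ∀ (x : ℕ → E) (J : Finset ℕ) (n : ℕ),
    ‖∑ j ∈ J, Y Φ (fun z => (z - c) ^ n * G j z) (x j)‖ ≤
      C * (∑ j ∈ J, ‖x j‖ ^ p) ^ (1 / p) * ρ ^ n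

/-- CHN: the integrated local resolvents -/
def S_CHN : Prop :=
  ∀ (E : Type) [NormedAddCommGroup E] [NormedSpace ℂ E] [CompleteSpace E] (K : Set ℂ)
    [CompactSpace K] (Φ : C(K, ℂ) →ₐ[ℂ] (E →L[ℂ] E)) (N : E →L[ℂ] E) (M : ℝ), FC Φ N M →
  ∀ Ct : (E →L[ℂ] ℂ) → E → ℂ → ℂ, CT Φ Ct → ∀ p : ℝ, 1 < p → p < 2 →
  ∀ (K' : E →L[ℂ] E) (f : ℕ → (E →L[ℂ] ℂ)) (x : ℕ → E), Rep p K' f x →
  ∀ (x₀ : E) (t c : ℂ) (ρ : ℝ), 0 < ρ →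
  ∀ (g : ℂ → ℂ) (G : ℕ → ℂ → ℂ), Measurable g → (∀ j, Measurable (G j)) →
    (∀ z, z ∉ ball c ρ → g z = 0) → (∀ j z, z ∉ ball c ρ → G j z = 0) → (∀ z, ‖g z‖ ≤ 1) →
    (∀ z n, ∑ j ∈ Finset.range n, ‖G j z‖ ^ 2 ≤ 1) →
    (∀ᵐ z, ∀ i, HasSum (fun j => t * (Ct (f i) (x j) z * G j z))
      (G i z - g z * Ct (f i) x₀ z)) →
    (∀ n : ℕ, ∫ z, (z - c) ^ (n + 1) * g z = 0) →
  ∃ (X : ℕ → E) (C : ℝ), (∀ n, ‖X n‖ ≤ C * ρ ^ n) ∧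
    (N + t • K') (X 0) - c • X 0 = X 1 - (∫ z, g z) • x₀ ∧
    ∀ n, (N + t • K') (X (n + 1)) - c • X (n + 1) = X (n + 2)

/-- ONE: spectrum in one point -/
def S_ONE : Prop :=
  ∀ (E : Type) [NormedAddCommGroup E] [NormedSpace ℂ E] [CompleteSpace E] (K : Set ℂ)
    [CompactSpace K] (Φ : C(K, ℂ) →ₐ[ℂ] (E →L[ℂ] E)) (N : E →L[ℂ] E) (M : ℝ), FC Φ N M →
  ∀ R : E →L[ℂ] E, IsCompactOperator R → ∀ c : ℂ, (∀ z ∈ spectrum ℂ (N + R), z = c) →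
  IsCompactOperator (N + R - c • (1 : E →L[ℂ] E))

/-- LOCV: from integrated local resolvents to small local spectra -/
def S_LOCV : Prop :=
  ∀ (E : Type) [NormedAddCommGroup E] [NormedSpace ℂ E] [CompleteSpace E] (T : E →L[ℂ] E),
    Lrs T → LocV T

/-- NUC: compactness, and the representation of the adjoint -/
def S_NUC : Prop :=
  ∀ (E : Type) [NormedAddCommGroup E] [NormedSpace ℂ E] [CompleteSpace E] (p : ℝ), 1 < p →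
    p < 2 → ∀ (K : E →L[ℂ] E) (f : ℕ → (E →L[ℂ] ℂ)) (x : ℕ → E), Rep p K f x →
  IsCompactOperator K ∧ Rep p (ad K) (fun j => ev (x j)) f

/-- RSC: rescaling of nuclear representations -/
def S_RSC : Prop :=
  ∀ (E : Type) [NormedAddCommGroup E] [NormedSpace ℂ E] (q : ℝ), 0 < q → q < 1 →
  ∀ (K : E →L[ℂ] E) (f : ℕ → (E →L[ℂ] ℂ)) (x : ℕ → E),
    Summable (fun j => (‖f j‖ * ‖x j‖) ^ q) → (∀ y, HasSum (fun j => f j y • x j) (K y)) →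
  ∃ (p : ℝ) (f' : ℕ → (E →L[ℂ] ℂ)) (x' : ℕ → E), 1 < p ∧ p < 2 ∧ Rep p K f' x'

end Pool.Agent.K1H27.BN
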