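import Pool.Agent.K1H27.BN.Loc
import Pool.Agent.K1H27.BN.Ex
import Pool.Agent.Y891.NK.AREA
import Pool.Agent.K1H27.BN.Cau
import Pool.Agent.K1H74.BN.Jen
import Pool.Agent.K1H24.BN.HB
import Pool.Agent.K1H48.BN.Gen
import Pool.Agent.K1H97.BN.Nrm
import Pool.Agent.K1H73.BN.Chn
import Pool.Agent.K1H14.BN.One
import Pool.Agent.K1H67.BN.Small
import Pool.Agent.K1H59.BN.T_SOL

/-!
# Project BN: the theorem
-/

set_option autoImplicit false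

namespace Pool.Agent.K1H27.BN

open MeasureTheory Set Metric Filter Topology
open scoped ENNReal NNReal
open Pool.Agent.Y283.NK (lm LogBd HasHyp)
open Pool.Agent.R277.SP (FC LocV ad)

theorem rsc {E : Type} [NormedAddCommGroup E] [NormedSpace ℂ E] (q : ℝ) (hq0 : 0 < q)
    (hq : q < 1) (K : E →L[ℂ] E) (f : ℕ → (E →L[ℂ] ℂ)) (x : ℕ → E)
    (h1 : Summable (fun j => (‖f j‖ * ‖x j‖) ^ q)) (h2 : ∀ y, HasSum (fun j => f j y • x j) (K y)) :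
    ∃ (p : ℝ) (f' : ℕ → (E →L[ℂ] ℂ)) (x' : ℕ → E), 1 < p ∧ p < 2 ∧ Rep p K f' x' :=
  Pool.Agent.K1H67.BN.t_RSC E q hq0 hq K f x h1 h2

theorem final0 (hS : S_SOL) {X : Type} [NormedAddCommGroup X] [NormedSpace ℂ X] [CompleteSpace X]
    {K : Set ℂ} [CompactSpace K] {Φ : C(K, ℂ) →ₐ[ℂ] (X →L[ℂ] X)}
    {N : X →L[ℂ] X} {M : ℝ} (hF : FC Φ N M) {p : ℝ} (p1 : 1 < p) (p2 : p < 2)
    {K' : X →L[ℂ] X} {f : ℕ → (X →L[ℂ] ℂ)} {x : ℕ → X} (hR : Rep p K' f x)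
    (m : Measure ℂ) [SFinite m] (hm : LogBd m) :
    ∀ᵐ t ∂m, ((∃ c : ℂ, N + t • K' = c • 1) ∨ HasHyp (N + t • K')) ∧ LocV (N + t • K') ∧
      LocV (ad (N + t • K')) :=
  main t_CAU Pool.Agent.K1H74.BN.t_JEN Pool.Agent.K1H24.BN.t_HB Pool.Agent.K1H48.BN.t_GEN hS
    (Pool.Agent.K1H73.BN.t_CHN Pool.Agent.K1H97.BN.t_NRM) t_ONE Pool.Agent.K1H67.BN.t_LOCV
    Pool.Agent.K1H67.BN.t_NUC hF p1 p2 hR m hm

theorem final {X : Type} [NormedAddCommGroup X] [NormedSpace ℂ X] [CompleteSpace X]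
    {K : Set ℂ} [CompactSpace K] {Φ : C(K, ℂ) →ₐ[ℂ] (X →L[ℂ] X)}
    {N : X →L[ℂ] X} {M : ℝ} (hF : FC Φ N M) {p : ℝ} (p1 : 1 < p) (p2 : p < 2)
    {K' : X →L[ℂ] X} {f : ℕ → (X →L[ℂ] ℂ)} {x : ℕ → X} (hR : Rep p K' f x)
    (m : Measure ℂ) [SFinite m] (hm : LogBd m) :
    ∀ᵐ t ∂m, ((∃ c : ℂ, N + t • K' = c • 1) ∨ HasHyp (N + t • K')) ∧ LocV (N + t • K') ∧
      LocV (ad (N + t • K')) :=
  final0 Pool.Agent.K1H59.BN.t_SOL hF p1 p2 hR m hm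

end Pool.Agent.K1H27.BN
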