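import Pool.Agent.K1H27.BN.Stm

/-!
# Project BN: assembly
-/

set_option autoImplicit false

namespace Pool.Agent.K1H27.BN

open MeasureTheory Set Metric Filter Topology
open scoped ENNReal NNReal
open Pool.Agent.Y283.NK (lm LogBd HasHyp)
open Pool.Agent.Y271.RO (ht Bd)
open Pool.Agent.R277.SP (FC Y LocV ad adΦ ev)
open Pool.Agent.K1H27.SN (fd col)

theorem wgt (hJ : S_JEN) (hH : S_HB) : S_WGT := by
  intro c ρ u hρ hu hI
  obtain ⟨κ, hκ, hP⟩ := hJ c ρ u hρ hu hI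
  have hw0 : ∀ z, 0 ≤ wu u z := by
    intro z
    unfold wu
    split_ifs
    · exact le_rfl
    · exact (Real.exp_pos _).le
  have hw1 : ∀ z, wu u z ≤ 1 := by
    intro z
    unfold wu
    split_ifs
    · exact zero_le_one
    · rw [Real.exp_le_one_iff]
      simp
  have hwm : Measurable (wu u) := by
    unfold wu
    exact Measurable.ite (hu (measurableSet_singleton ⊤)) measurable_const
      (Real.measurable_exp.comp hu.ennreal_toReal.neg)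
  obtain ⟨g, g1, g2, g3, g4, g5⟩ := hH c ρ (wu u) hρ hwm hw0 hw1 κ hκ hP
  refine ⟨g, g1, g2, fun z hz => ?_, fun z => (g3 z).trans ?_, g4, g5⟩
  · have := g3 z
    unfold wu at this
    rw [if_pos hz] at this
    exact norm_le_zero_iff.1 this
  · unfold wu
    split_ifs
    · exact (Real.exp_pos _).le
    · exact le_rfl

section

variable {E : Type} [NormedAddCommGroup E] [NormedSpace ℂ E]

theorem sum1 {p : ℝ} {f : ℕ → ℝ} (hf : ∀ j, 0 ≤ f j) (hs : Summable fun j => f j ^ p) :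
    ∑' j, ENNReal.ofReal (f j ^ p) ≠ ⊤ := hs.tsum_ofReal_ne_top

theorem intF {K : Set ℂ} [CompactSpace K] {Φ : C(K, ℂ) →ₐ[ℂ] (E →L[ℂ] E)}
    {Ct : (E →L[ℂ] ℂ) → E → ℂ → ℂ} (hC : CT Φ Ct) {p : ℝ} (p1 : 1 < p) (p2 : p < 2)
    {f : ℕ → (E →L[ℂ] ℂ)} {x : ℕ → E} (hf : Summable fun j => ‖f j‖ ^ p)
    (hx : Summable fun j => ‖x j‖ ^ p) (R : ℝ) :
    ∫⁻ z in ball (0:ℂ) R, ∑' i, ∑' j, ‖Ct (f i) (x j) z‖ₑ ^ p ≠ ⊤ := by
  obtain ⟨B, hB⟩ := hC.bd p p1 p2 R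
  have m1 : ∀ i j, Measurable fun z => ‖Ct (f i) (x j) z‖ₑ ^ p := fun i j =>
    (hC.meas (f i) (x j)).enorm.pow_const p
  rw [lintegral_tsum fun i => (Measurable.tsum fun j => m1 i j).aemeasurable]
  have h1 : ∀ i, ∫⁻ z in ball (0:ℂ) R, ∑' j, ‖Ct (f i) (x j) z‖ₑ ^ p ≤
      ENNReal.ofReal (‖f i‖ ^ p) * (B * ∑' j, ENNReal.ofReal (‖x j‖ ^ p)) := by
    intro i
    rw [lintegral_tsum fun j => (m1 i j).aemeasurable, ← ENNReal.tsum_mul_left,
      ← ENNReal.tsum_mul_left]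
    refine ENNReal.tsum_le_tsum fun j => (hB (f i) (x j)).trans (le_of_eq ?_)
    rw [Real.mul_rpow (norm_nonneg _) (norm_nonneg _),
      ENNReal.ofReal_mul (Real.rpow_nonneg (norm_nonneg _) _)]
    ring
  refine ne_top_of_le_ne_top ?_ (ENNReal.tsum_le_tsum h1)
  rw [ENNReal.tsum_mul_right]
  exact ENNReal.mul_ne_top hf.tsum_ofReal_ne_top
    (ENNReal.mul_ne_top ENNReal.coe_ne_top hx.tsum_ofReal_ne_top)

theorem intb {K : Set ℂ} [CompactSpace K] {Φ : C(K, ℂ) →ₐ[ℂ] (E →L[ℂ] E)}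
    {Ct : (E →L[ℂ] ℂ) → E → ℂ → ℂ} (hC : CT Φ Ct) {p : ℝ} (p1 : 1 < p) (p2 : p < 2)
    {f : ℕ → (E →L[ℂ] ℂ)} (x : E) (hf : Summable fun j => ‖f j‖ ^ p) (R : ℝ) :
    ∫⁻ z in ball (0:ℂ) R, ∑' i, ‖Ct (f i) x z‖ₑ ^ p ≠ ⊤ := by
  obtain ⟨B, hB⟩ := hC.bd p p1 p2 R
  have m1 : ∀ i, Measurable fun z => ‖Ct (f i) x z‖ₑ ^ p := fun i =>
    (hC.meas (f i) x).enorm.pow_const p
  rw [lintegral_tsum fun i => (m1 i).aemeasurable]
  have h1 : ∀ i, ∫⁻ z in ball (0:ℂ) R, ‖Ct (f i) x z‖ₑ ^ p ≤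
      ENNReal.ofReal (‖f i‖ ^ p) * (B * ENNReal.ofReal (‖x‖ ^ p)) := by
    intro i
    refine (hB (f i) x).trans (le_of_eq ?_)
    rw [Real.mul_rpow (norm_nonneg _) (norm_nonneg _),
      ENNReal.ofReal_mul (Real.rpow_nonneg (norm_nonneg _) _)]
    ring
  refine ne_top_of_le_ne_top ?_ (ENNReal.tsum_le_tsum h1)
  rw [ENNReal.tsum_mul_right]
  exact ENNReal.mul_ne_top hf.tsum_ofReal_ne_top
    (ENNReal.mul_ne_top ENNReal.coe_ne_top ENNReal.ofReal_ne_top)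

theorem lrs [CompleteSpace E] (hS : S_SOL) (hW : S_WGT) (hN : S_CHN) {K : Set ℂ} [CompactSpace K]
    {Φ : C(K, ℂ) →ₐ[ℂ] (E →L[ℂ] E)} {N : E →L[ℂ] E} {M : ℝ} (hF : FC Φ N M)
    {Ct : (E →L[ℂ] ℂ) → E → ℂ → ℂ} (hC : CT Φ Ct) {p : ℝ} (p1 : 1 < p) (p2 : p < 2)
    {K' : E →L[ℂ] E} {f : ℕ → (E →L[ℂ] ℂ)} {x : ℕ → E} (hR : Rep p K' f x) (t : ℂ)
    (ht : ∀ l : ℕ, ∃ (I : Set ℕ) (B : ℝ≥0), I.Infinite ∧ ∀ n ∈ I,
      ∫⁻ z in ball (0:ℂ) l, lm ‖fd (sec (fun i j => Ct (f i) (x j) z) n) t‖ ≤ B) :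
    Lrs (N + t • K') := by
  intro x₀ c ρ hρ
  obtain ⟨l, hl⟩ := exists_nat_gt (‖c‖ + ρ)
  have hcl : ball c ρ ⊆ ball (0:ℂ) l := by
    intro z hz
    rw [mem_ball, dist_eq_norm] at hz
    rw [mem_ball_zero_iff]
    have : ‖z‖ ≤ ‖z - c‖ + ‖c‖ := by
      calc ‖z‖ = ‖(z - c) + c‖ := by rw [sub_add_cancel]
        _ ≤ _ := norm_add_le _ _
    linarith
  obtain ⟨G, cc, mG, mc, iG, hG⟩ := hS p p1 p2 (fun z i j => Ct (f i) (x j) z)
    (fun z i => Ct (f i) x₀ z) t l (fun i j => hC.meas _ _) (fun i => hC.meas _ _)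
    (intF hC p1 p2 hR.sf hR.sx l) (intb hC p1 p2 x₀ hR.sf l) (ht l)
  have iG' : ∫⁻ z in ball c ρ, G z ≠ ⊤ :=
    ne_top_of_le_ne_top iG (lintegral_mono_set hcl)
  obtain ⟨g₀, g1, g2, g3, g4, g5, g6⟩ := hW c ρ G hρ mG iG'
  -- the good set
  rw [ae_restrict_iff' measurableSet_ball] at hG
  obtain ⟨A, hA1, hA2, hA3⟩ := exists_measurable_superset_of_null (ae_iff.1 hG)
  set W : Set ℂ := Aᶜ with hWdef
  have hWm : MeasurableSet W := hA2.compl
  have hWae : ∀ᵐ z, z ∈ W := by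
    rw [ae_iff]
    simpa [hWdef] using hA3
  have hgood : ∀ z ∈ W, z ∈ ball (0:ℂ) l →
      (∀ n, ∑ j ∈ Finset.range n, ‖cc j z‖ ^ 2 ≤ Real.exp (2 * (G z).toReal)) ∧
      ∀ i, HasSum (fun j => t * (Ct (f i) (x j) z * cc j z)) (cc i z - Ct (f i) x₀ z) := by
    intro z hz
    by_contra hcon
    exact hz (hA1 hcon)
  set g : ℂ → ℂ := W.indicator g₀ with hg
  have hgm : Measurable g := g1.indicator hWm
  have hgval : ∀ z ∈ W, g z = g₀ z := fun z hz => indicator_of_mem hz _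
  have hg0 : ∀ z, z ∉ W → g z = 0 := fun z hz => indicator_of_notMem hz _
  have hgsupp : ∀ z, z ∉ ball c ρ → g z = 0 := by
    intro z hz
    by_cases h : z ∈ W
    · rw [hgval z h, g2 z hz]
    · exact hg0 z h
  have hgle : ∀ z, ‖g z‖ ≤ Real.exp (-(G z).toReal) := by
    intro z
    by_cases h : z ∈ W
    · rw [hgval z h]; exact g4 z
    · rw [hg0 z h, norm_zero]; exact (Real.exp_pos _).le
  have hg1 : ∀ z, ‖g z‖ ≤ 1 := by
    intro z
    refine (hgle z).trans ?_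
    rw [Real.exp_le_one_iff]
    simp
  have hae : ∀ᵐ z, g z = g₀ z := by
    filter_upwards [hWae] with z hz
    exact hgval z hz
  have hbd : ∀ z n, ∑ j ∈ Finset.range n, ‖g z * cc j z‖ ^ 2 ≤ 1 := by
    intro z n
    by_cases h : z ∈ W ∧ z ∈ ball c ρ
    · obtain ⟨h1, -⟩ := hgood z h.1 (hcl h.2)
      calc ∑ j ∈ Finset.range n, ‖g z * cc j z‖ ^ 2
          = ‖g z‖ ^ 2 * ∑ j ∈ Finset.range n, ‖cc j z‖ ^ 2 := by
            rw [Finset.mul_sum]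
            exact Finset.sum_congr rfl fun j _ => by rw [norm_mul, mul_pow]
        _ ≤ Real.exp (-(G z).toReal) ^ 2 * Real.exp (2 * (G z).toReal) := by
            refine mul_le_mul (pow_le_pow_left₀ (norm_nonneg _) (hgle z) 2) (h1 n)
              (Finset.sum_nonneg fun j _ => by positivity) (by positivity)
        _ = 1 := by
            rw [← Real.exp_nat_mul, ← Real.exp_add]
            simp
    · have h0 : g z = 0 := by
        rcases not_and_or.1 h with h | h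
        · exact hg0 z h
        · exact hgsupp z h
      simp [h0]
  obtain ⟨X, C, x1, x2, x3⟩ := hN E K Φ N M hF Ct hC p p1 p2 K' f x hR x₀ t c ρ hρ g
    (fun j z => g z * cc j z) hgm (fun j => hgm.mul (mc j)) hgsupp
    (fun j z hz => by simp only [hgsupp z hz, zero_mul]) hg1 hbd
    (Eventually.of_forall fun z i => by
      by_cases h : z ∈ W ∧ z ∈ ball c ρ
      · obtain ⟨-, h2⟩ := hgood z h.1 (hcl h.2)
        have h3 := (h2 i).mul_left (g z)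
        have e1 : (fun j => t * (Ct (f i) (x j) z * (g z * cc j z))) =
            fun j => g z * (t * (Ct (f i) (x j) z * cc j z)) := by
          funext j
          ring
        rw [e1, ← mul_sub]
        exact h3
      · have h0 : g z = 0 := by
          rcases not_and_or.1 h with h | h
          · exact hg0 z h
          · exact hgsupp z h
        simp only [h0, zero_mul, mul_zero, sub_zero]
        exact hasSum_zero)
    (fun n => by
      rw [← g5 n]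
      refine integral_congr_ae ?_
      filter_upwards [hae] with z hz
      rw [hz])
  refine ⟨X, ∫ z, g z, C, ?_, x1, x2, x3⟩
  rw [integral_congr_ae hae]
  exact g6

/-- almost every coupling -/
theorem ae_lrs [CompleteSpace E] (hA : S_CAU) (hG : S_GEN) (hS : S_SOL) (hW : S_WGT)
    (hN : S_CHN) {K : Set ℂ} [CompactSpace K]
    {Φ : C(K, ℂ) →ₐ[ℂ] (E →L[ℂ] E)} {N : E →L[ℂ] E} {M : ℝ} (hF : FC Φ N M)
    {p : ℝ} (p1 : 1 < p) (p2 : p < 2)
    {K' : E →L[ℂ] E} {f : ℕ → (E →L[ℂ] ℂ)} {x : ℕ → E} (hR : Rep p K' f x)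
    (m : Measure ℂ) [SFinite m] (hm : LogBd m) : ∀ᵐ t ∂m, Lrs (N + t • K') := by
  obtain ⟨Ct, hC⟩ := hA E K Φ N M hF
  filter_upwards [hG p p1 p2 (fun z i j => Ct (f i) (x j) z) (fun i j => hC.meas _ _)
    (fun R => intF hC p1 p2 hR.sf hR.sx R) m hm] with t ht
  exact lrs hS hW hN hF hC p1 p2 hR t ht

end

/-- the conclusion for one operator -/
theorem concl {X : Type} [NormedAddCommGroup X] [NormedSpace ℂ X] [CompleteSpace X]
    (hO : S_ONE) {K : Set ℂ} [CompactSpace K] {Φ : C(K, ℂ) →ₐ[ℂ] (X →L[ℂ] X)}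
    {N : X →L[ℂ] X} {M : ℝ} (hF : FC Φ N M) {R : X →L[ℂ] X} (hR : IsCompactOperator R)
    (h1 : LocV (N + R)) (h2 : LocV (ad (N + R))) :
    (∃ c : ℂ, N + R = c • 1) ∨ HasHyp (N + R) := by
  by_cases hsc : ∃ c : ℂ, N + R = c • 1
  · exact Or.inl hsc
  right
  have hnt : Nontrivial X := by
    by_contra h
    rw [not_nontrivial_iff_subsingleton] at h
    apply hsc
    refine ⟨0, ?_⟩
    ext1 f
    exact Subsingleton.elim _ _
  obtain ⟨c₁, hc₁⟩ := spectrum.nonempty (N + R)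
  by_cases hone : ∀ z ∈ spectrum ℂ (N + R), z = c₁
  · have h3 := hO X K Φ N M hF R hR c₁ hone
    refine Pool.Agent.R277.SP.hyp_shift c₁ (Pool.Agent.W577.HI.G1.main _ _ h3 ?_)
    rintro ⟨c, hc⟩
    apply hsc
    refine ⟨c + c₁, ?_⟩
    rw [add_smul, ← hc]
    abel
  · push Not at hone
    obtain ⟨c₂, hc₂, hne⟩ := hone
    exact Pool.Agent.R277.SP.hyp_of_locv h1 h2 hc₁ hc₂ (Ne.symm hne)

/-- the theorem -/
theorem main (hA : S_CAU) (hJ : S_JEN) (hH : S_HB) (hG : S_GEN) (hS : S_SOL) (hN : S_CHN)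
    (hO : S_ONE) (hL : S_LOCV) (hU : S_NUC) {X : Type} [NormedAddCommGroup X] [NormedSpace ℂ X]
    [CompleteSpace X] {K : Set ℂ} [CompactSpace K] {Φ : C(K, ℂ) →ₐ[ℂ] (X →L[ℂ] X)}
    {N : X →L[ℂ] X} {M : ℝ} (hF : FC Φ N M) {p : ℝ} (p1 : 1 < p) (p2 : p < 2)
    {K' : X →L[ℂ] X} {f : ℕ → (X →L[ℂ] ℂ)} {x : ℕ → X} (hR : Rep p K' f x)
    (m : Measure ℂ) [SFinite m] (hm : LogBd m) :
    ∀ᵐ t ∂m, ((∃ c : ℂ, N + t • K' = c • 1) ∨ HasHyp (N + t • K')) ∧ LocV (N + t • K') ∧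
      LocV (ad (N + t • K')) := by
  have hW := wgt hJ hH
  obtain ⟨hc, hR'⟩ := hU X p p1 p2 K' f x hR
  filter_upwards [ae_lrs hA hG hS hW hN hF p1 p2 hR m hm,
    ae_lrs hA hG hS hW hN hF.dual p1 p2 hR' m hm] with t h1 h2
  have l1 : LocV (N + t • K') := hL X _ h1
  have e1 : ad (N + t • K') = ad N + t • ad K' := by
    ext y v
    show y (N v + t • K' v) = y (N v) + t • y (K' v)
    rw [map_add, map_smul]
  have l2 : LocV (ad (N + t • K')) := by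
    rw [e1]
    exact hL _ _ h2
  exact ⟨concl hO hF (hc.smul t) l1 l2, l1, l2⟩

end Pool.Agent.K1H27.BN
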